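import Pool.Agent.W922.GY2.Stm

namespace Pool.Agent.W207.GY2

open Filter Topology MeasureTheory Set
open scoped Pointwise
open Pool.Agent.W922.GY2

lemma cost_le {G : Type} (f : G → ℝ) (ε : ℝ) (hf : ∀ g, 0 ≤ f g) (hε : 0 ≤ ε) (L : List G) :
    cost (fun g => max (f g) ε) L ≤ cost f L + ε * L.length := by
  induction L with
  | nil => simp [cost]
  | cons a L ih =>
    have h1 : cost (fun g => max (f g) ε) (a :: L) = max (f a) ε + cost (fun g => max (f g) ε) L := by
      simp [cost]
    have h2 : cost f (a :: L) = f a + cost f L := by simp [cost]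
    have h3 : max (f a) ε ≤ f a + ε := by
      apply max_le
      · linarith
      · linarith [hf a]
    rw [h1, h2, List.length_cons]
    push_cast
    nlinarith

lemma cost_nonneg {G : Type} (f : G → ℝ) (hf : ∀ g, 0 ≤ f g) (L : List G) : 0 ≤ cost f L := by
  induction L with
  | nil => simp [cost]
  | cons a L ih =>
    have h2 : cost f (a :: L) = f a + cost f L := by simp [cost]
    rw [h2]
    linarith [hf a]

theorem key (h1 : S_CPT) (h2 : S_ESC) (h3 : S_SCALE) (h4 : S_ITER) (h5 : S_LEMB) : S_KEY := by
  intro G _ _ _ _ _ U hU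
  obtain ⟨V, hVo, hV1, hVU⟩ := exists_open_nhds_one_mul_subset hU.nhd
  obtain ⟨W, hWo, hW1, hWV⟩ := exists_open_nhds_one_mul_subset (hVo.mem_nhds hV1)
  have hWsub : W ⊆ V := by
    intro x hx
    apply hWV
    exact ⟨x, hx, 1, hW1, mul_one x⟩
  have hWWW : W * W * W ⊆ U := by
    intro x hx
    obtain ⟨y, hy, z, hz, rfl⟩ := hx
    exact hVU ⟨y, hWV hy, z, hWsub hz, rfl⟩
  obtain ⟨N, hN0, hN⟩ := h1 G U hU W (hWo.mem_nhds hW1)
  have hNpos : (0 : ℝ) < N := by exact_mod_cast hN0
  obtain ⟨A, hA, hB⟩ := h5 G U W hU hWo hW1 hWWW (1 / (2 * (N : ℝ))) (by positivity)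
  obtain ⟨e1, e2, e3, e4, e5, e6⟩ := h2 G U hU
  refine ⟨2 * A + 1, by linarith, ?_⟩
  intro L hL
  have hC : 0 ≤ cost (esc U) L := cost_nonneg _ (fun g => (e1 g).1) L
  set C := cost (esc U) L with hCdef
  set K := 2 * A + 1 with hK
  have hKpos : 0 < K := by rw [hK]; linarith
  have hlen : (0 : ℝ) ≤ (L.length : ℝ) := by positivity
  set ε := (1 - K * C) / (2 * K * (L.length + 1)) with hε
  have hεpos : 0 < ε := by
    rw [hε]
    apply div_pos
    · linarith
    · positivity
  have hεle : K * (ε * L.length) < 1 - K * C := by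
    have h7 : K * (ε * L.length) ≤ (1 - K * C) / 2 := by
      have h8 : K * (ε * (L.length + 1)) = (1 - K * C) / 2 := by
        rw [hε]
        field_simp
      have h9 : K * (ε * L.length) ≤ K * (ε * (L.length + 1)) := by
        apply mul_le_mul_of_nonneg_left _ hKpos.le
        apply mul_le_mul_of_nonneg_left _ hεpos.le
        linarith
      linarith
    linarith
  have hadm : Adm U ε (fun g => max (esc U g) ε) :=
    { pos := hεpos
      le := fun g => le_max_right _ _
      inv := fun g => by simp only [e4 g]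
      esc := fun g n hn => by
        apply e3 g n _ n le_rfl
        refine lt_of_le_of_lt ?_ hn
        exact mul_le_mul_of_nonneg_left (le_max_left _ _) (by positivity) }
  have hchain : ∀ M, 0 ≤ M → PP (fun g => max (esc U g) ε) M U →
      PP (fun g => max (esc U g) ε) (A + M / 2) U := by
    intro M hM hPP
    have s1 := h3 G U W N (fun g => max (esc U g) ε) M hM
      (fun g => le_trans (e1 g).1 (le_max_left _ _)) hN hPP
    have s2 := hB ε (fun g => max (esc U g) ε) (N * M) (by positivity) hadm s1
    have s3 : A + 1 / (2 * (N : ℝ)) * (N * M) = A + M / 2 := by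
      field_simp
    rw [s3] at s2
    exact s2
  have hfin := h4 G U ε (fun g => max (esc U g) ε) A hadm hA hchain
  apply hfin L
  have hc := cost_le (esc U) ε (fun g => (e1 g).1) hεpos.le L
  calc (2 * A + 1) * cost (fun g => max (esc U g) ε) L
      ≤ K * (C + ε * L.length) := mul_le_mul_of_nonneg_left hc hKpos.le
    _ = K * C + K * (ε * L.length) := by ring
    _ < 1 := by linarith

end Pool.Agent.W207.GY2
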